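import Pool.Agent.V11196.MFE.Ex

set_option linter.unusedSectionVars false
set_option linter.unusedVariables false

/-!
# Approximability, generalized ellipses
-/

namespace V11196.MFE

open Filter Topology MeasureTheory

/-- A closed convex curve: the boundary of a compact convex set with nonempty interior. -/
def IsConvexCurve (C : Set Pl) : Prop :=
  ∃ K : Set Pl, Convex ℝ K ∧ IsCompact K ∧ (interior K).Nonempty ∧ C = frontier K

/-- The sum of the distances to the foci `x_1, …, x_n`. -/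
noncomputable def fsum {n : ℕ} (x : Fin n → Pl) (z : Pl) : ℝ := ∑ i, ‖z - x i‖

/-- `C` is approximable: for every `ε > 0` some multifocal ellipse `{f = c}`, `c > min f`, lies
within Hausdorff distance `ε` of `C`. -/
def Approximable (C : Set Pl) : Prop :=
  ∀ ε : ℝ, 0 < ε → ∃ (n : ℕ) (x : Fin n → Pl) (c : ℝ), (∃ z, fsum x z < c) ∧
    (∀ z, fsum x z = c → ∃ y ∈ C, dist z y < ε) ∧ (∀ y ∈ C, ∃ z, fsum x z = c ∧ dist y z < ε)

/-- A rectifiable curve: a Lipschitz image of `[0, 1]`. -/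
def IsRectifiableCurve (Γ : Set Pl) : Prop :=
  ∃ (γ : ℝ → Pl) (L : NNReal), LipschitzOnWith L γ (Set.Icc 0 1) ∧ Γ = γ '' Set.Icc 0 1

/-- The function `F = U_E + V_Γ + ∑ |x - p_j|`. -/
noncomputable def genF (E Γ : Set Pl) {m : ℕ} (p : Fin m → Pl) (x : Pl) : ℝ :=
  (∫ y in E, ‖x - y‖) + (∫ y in Γ, ‖x - y‖ ∂(μH[1])) + ∑ j, ‖x - p j‖

/-- `C` is of generalized-ellipse form. -/
def IsGenEllipse (C : Set Pl) : Prop :=
  ∃ (E Γ : Set Pl) (m : ℕ) (p : Fin m → Pl) (c : ℝ),
    IsOpen E ∧ Bornology.IsBounded E ∧ (Γ = ∅ ∨ IsRectifiableCurve Γ) ∧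
    (∃ z, genF E Γ p z < c) ∧ C = {x | genF E Γ p x = c}

/-- A weighted sum of distances with natural weights is a sum of distances. -/
theorem exists_fsum (N : ℕ) (k : Fin N → ℕ) (a : Fin N → Pl) :
    ∃ (n : ℕ) (x : Fin n → Pl), ∀ z, fsum x z = ∑ i, (k i : ℝ) * ‖z - a i‖ := by
  classical
  let ι := Σ i : Fin N, Fin (k i)
  refine ⟨Fintype.card ι, fun j => a ((Fintype.equivFin ι).symm j).1, fun z => ?_⟩
  unfold fsum
  rw [Fintype.sum_equiv (Fintype.equivFin ι).symm _ (fun j : ι => ‖z - a j.1‖) (fun _ => rfl)]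
  rw [Fintype.sum_sigma]
  refine Finset.sum_congr rfl fun i _ => ?_
  simp

/-- Truncated data. -/
noncomputable def trunc (D : Dat) (N : ℕ) : Dat where
  w := fun i => if i < N then D.w i else 0
  q := D.q
  w_nonneg := fun i => by
    show 0 ≤ (if i < N then D.w i else 0)
    split_ifs
    · exact D.w_nonneg i
    · exact le_rfl
  w_summable := by
    refine Summable.of_nonneg_of_le (fun i => ?_) (fun i => ?_) D.w_summable
    · split_ifs
      · exact D.w_nonneg i
      · exact le_rfl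
    · split_ifs
      · exact le_rfl
      · exact D.w_nonneg i
  w_sum := by
    refine le_trans ?_ D.w_sum
    refine Summable.tsum_le_tsum (fun i => ?_) ?_ D.w_summable
    · split_ifs
      · exact le_rfl
      · exact D.w_nonneg i
    · refine Summable.of_nonneg_of_le (fun i => ?_) (fun i => ?_) D.w_summable
      · split_ifs
        · exact D.w_nonneg i
        · exact le_rfl
      · split_ifs
        · exact le_rfl
        · exact D.w_nonneg i
  q_le := D.q_le

theorem trunc_f (D : Dat) (N : ℕ) (x : Pl) :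
    (trunc D N).f x = ‖x‖ + ∑ i ∈ Finset.range N, D.w i * ‖x - D.q i‖ := by
  unfold Dat.f
  congr 1
  rw [tsum_eq_sum (s := Finset.range N)]
  · refine Finset.sum_congr rfl fun i hi => ?_
    show (if i < N then D.w i else 0) * ‖x - D.q i‖ = _
    rw [if_pos (Finset.mem_range.mp hi)]
  · intro i hi
    show (if i < N then D.w i else 0) * ‖x - D.q i‖ = _
    rw [if_neg (fun h => hi (Finset.mem_range.mpr h)), zero_mul]

theorem trunc_le (D : Dat) (N : ℕ) (x : Pl) : (trunc D N).f x ≤ D.f x := by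
  rw [trunc_f]
  unfold Dat.f
  have := (D.summ x).sum_le_tsum (Finset.range N)
    (fun i _ => mul_nonneg (D.w_nonneg i) (norm_nonneg _))
  linarith

/-- The tail of the weights. -/
noncomputable def tail (D : Dat) (N : ℕ) : ℝ := ∑' i, D.w (i + N)

theorem tail_tendsto (D : Dat) : Tendsto (tail D) atTop (𝓝 0) :=
  tendsto_sum_nat_add D.w

theorem le_trunc (D : Dat) (N : ℕ) (x : Pl) (hx : ‖x‖ ≤ 1) :
    D.f x ≤ (trunc D N).f x + 3 * tail D N := by
  rw [trunc_f]
  unfold Dat.f
  have h1 := (D.summ x).sum_add_tsum_nat_add N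
  have h2 : ∑' i, D.w (i + N) * ‖x - D.q (i + N)‖ ≤ ∑' i, D.w (i + N) * 3 := by
    have hs : Summable fun i => D.w (i + N) := (summable_nat_add_iff N).mpr D.w_summable
    refine Summable.tsum_le_tsum (fun i => mul_le_mul_of_nonneg_left ?_ (D.w_nonneg _))
      ((summable_nat_add_iff N).mpr (D.summ x)) (hs.mul_right 3)
    refine (norm_sub_le _ _).trans ?_
    have := D.q_le (i + N)
    linarith
  rw [tsum_mul_right] at h2
  unfold tail
  linarith

/-- Level sets of nearby functions are close, first half. -/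
theorem near_inner (D : Dat) (z : Pl) (η : ℝ) (hz1 : 1 ≤ D.f z) (hz2 : D.f z ≤ 1 + η) :
    ∃ y, D.f y = 1 ∧ dist z y ≤ 8 / 7 * η := by
  have hg : Continuous fun s : ℝ => D.f (s • z) := D.f_cont.comp (by fun_prop)
  have h0 : D.f ((0 : ℝ) • z) ≤ 1 := by rw [zero_smul]; exact D.f_zero_lt.le
  have h1 : 1 ≤ D.f ((1 : ℝ) • z) := by rw [one_smul]; exact hz1
  obtain ⟨s, hs, hs1⟩ := intermediate_value_Icc zero_le_one hg.continuousOn ⟨h0, h1⟩
  refine ⟨s • z, hs1, ?_⟩
  have h2 := D.f_radial z 1 s hs.1 hs.2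
  have hs1' : D.f (s • z) = 1 := hs1
  rw [one_smul, hs1'] at h2
  rw [dist_eq_norm, show z - s • z = (1 - s) • z by rw [sub_smul, one_smul], norm_smul,
    Real.norm_of_nonneg (by linarith [hs.2])]
  linarith

/-- Level sets of nearby functions are close, second half. -/
theorem near_outer (D : Dat) (y : Pl) (η : ℝ) (hy1 : D.f y ≤ 1) (hy2 : 1 - η ≤ D.f y)
    (hy0 : y ≠ 0) : ∃ z, D.f z = 1 ∧ dist y z ≤ 8 / 7 * η := by
  have hy : 0 < ‖y‖ := norm_pos_iff.mpr hy0
  have hyle : ‖y‖ ≤ 1 := (D.norm_le_f y).trans hy1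
  have hg : Continuous fun s : ℝ => D.f (s • y) := D.f_cont.comp (by fun_prop)
  have h0 : D.f ((1 : ℝ) • y) ≤ 1 := by rw [one_smul]; exact hy1
  have h1 : 1 ≤ D.f (‖y‖⁻¹ • y) := by
    refine le_trans (le_of_eq ?_) (D.norm_le_f _)
    rw [norm_smul, norm_inv, norm_norm, inv_mul_cancel₀ hy.ne']
  have hle : (1 : ℝ) ≤ ‖y‖⁻¹ := (one_le_inv₀ hy).mpr hyle
  obtain ⟨s, hs, hs1⟩ := intermediate_value_Icc hle hg.continuousOn ⟨h0, h1⟩
  refine ⟨s • y, hs1, ?_⟩
  have h2 := D.f_radial y s 1 zero_le_one hs.1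
  have hs1' : D.f (s • y) = 1 := hs1
  rw [one_smul, hs1'] at h2
  rw [dist_eq_norm, show y - s • y = -((s - 1) • y) by rw [sub_smul, one_smul]; abel, norm_neg,
    norm_smul, Real.norm_of_nonneg (by linarith [hs.1])]
  linarith

/-- The truncations of the example are multifocal ellipses. -/
theorem trunc_fsum (N : ℕ) : ∃ (n : ℕ) (x : Fin n → Pl),
    ∀ z, fsum x z = 2 ^ (N + 4) * (trunc DD N).f z := by
  obtain ⟨n, x, hx⟩ := exists_fsum (N + 1)
    (Fin.cons (2 ^ (N + 4)) (fun i : Fin N => 2 ^ (N - (i : ℕ))))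
    (Fin.cons 0 (fun i : Fin N => DD.q i))
  refine ⟨n, x, fun z => ?_⟩
  rw [hx, Fin.sum_univ_succ, trunc_f, mul_add, Finset.mul_sum, Finset.sum_range]
  simp only [Fin.cons_zero, Fin.cons_succ, sub_zero]
  push_cast
  congr 1
  refine Finset.sum_congr rfl fun i _ => ?_
  rw [← mul_assoc]
  congr 1
  show (2 : ℝ) ^ (N - (i : ℕ)) = 2 ^ (N + 4) * (1 / 2) ^ ((i : ℕ) + 4)
  have hi : (i : ℕ) ≤ N := i.2.le
  have e : N + 4 = (N - (i : ℕ)) + ((i : ℕ) + 4) := by omega
  rw [e, pow_add, mul_assoc, ← mul_pow]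
  norm_num

theorem approx_DD : Approximable {x | DD.f x = 1} := by
  intro ε hε
  obtain ⟨N, hN⟩ : ∃ N, 4 * (tail DD N) < ε := by
    have h := (tail_tendsto DD).const_mul 4
    rw [mul_zero] at h
    exact (h.eventually (gt_mem_nhds hε)).exists
  obtain ⟨n, x, hx⟩ := trunc_fsum N
  have h2 : (0 : ℝ) < 2 ^ (N + 4) := by positivity
  have hiff : ∀ z, fsum x z = 2 ^ (N + 4) ↔ (trunc DD N).f z = 1 := by
    intro z
    rw [hx]
    constructor
    · intro h
      exact mul_left_cancel₀ h2.ne' (by rw [h, mul_one])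
    · intro h
      rw [h, mul_one]
  have htail : 0 ≤ tail DD N := tsum_nonneg fun i => DD.w_nonneg _
  refine ⟨n, x, 2 ^ (N + 4), ⟨0, ?_⟩, ?_, ?_⟩
  · rw [hx]
    calc 2 ^ (N + 4) * (trunc DD N).f 0 < 2 ^ (N + 4) * 1 :=
          mul_lt_mul_of_pos_left (trunc DD N).f_zero_lt h2
      _ = _ := mul_one _
  · intro z hz
    rw [hiff] at hz
    have hz1 : ‖z‖ ≤ 1 := ((trunc DD N).norm_le_f z).trans hz.le
    obtain ⟨y, hy, hd⟩ := near_inner DD z (3 * tail DD N)
      (by rw [← hz]; exact trunc_le DD N z)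
      (by rw [← hz]; exact le_trunc DD N z hz1)
    exact ⟨y, hy, lt_of_le_of_lt hd (by linarith)⟩
  · intro y hy
    have hy' : DD.f y = 1 := hy
    have hy1 : ‖y‖ ≤ 1 := (DD.norm_le_f y).trans hy'.le
    have hy0 : y ≠ 0 := by
      rintro rfl
      exact absurd hy' (ne_of_lt DD.f_zero_lt)
    obtain ⟨z, hz, hd⟩ := near_outer (trunc DD N) y (3 * tail DD N)
      (by rw [← hy']; exact trunc_le DD N y)
      (by have := le_trunc DD N y hy1; linarith) hy0
    exact ⟨z, (hiff z).mpr hz, lt_of_le_of_lt hd (by linarith)⟩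

theorem curve_DD : IsConvexCurve {x | DD.f x = 1} :=
  ⟨_, DD.level_body.1, DD.level_body.2.1, DD.level_body.2.2.1, DD.level_body.2.2.2⟩

/-- General negative statement. -/
theorem neg_DD (ν : Measure Pl) [IsFiniteMeasure ν] [NullSingletonClass ν]
    (hν : Integrable (fun y : Pl => ‖y‖) ν) {m : ℕ} (p : Fin m → Pl) (c : ℝ)
    (hc : ∃ z, FF ν p z < c) : {x | DD.f x = 1} ≠ {x | FF ν p x = c} :=
  neg DD DD_q ww_pos DD_inj ν hν p c hc

theorem not_gen : ¬ IsGenEllipse {x | DD.f x = 1} := by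
  rintro ⟨E, Γ, m, p, c, hE, hEb, hΓ, hc, hC⟩
  have hΓb : Bornology.IsBounded Γ ∧ μH[1] Γ < ⊤ := by
    rcases hΓ with rfl | ⟨γ, L, hL, rfl⟩
    · simp
    · constructor
      · exact (isCompact_Icc.image_of_continuousOn hL.continuousOn).isBounded
      · refine lt_of_le_of_lt (hL.hausdorffMeasure_image_le (by norm_num)) ?_
        refine ENNReal.mul_lt_top (by simp) ?_
        rw [MeasureTheory.hausdorffMeasure_real]
        simp
  have hEfin : volume E < ⊤ := hEb.measure_lt_top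
  let ν : Measure Pl := volume.restrict E + (μH[1] : Measure Pl).restrict Γ
  have h1 : IsFiniteMeasure (volume.restrict E : Measure Pl) := ⟨by
    rw [Measure.restrict_apply_univ]; exact hEfin⟩
  have h2 : IsFiniteMeasure ((μH[1] : Measure Pl).restrict Γ) := ⟨by
    rw [Measure.restrict_apply_univ]; exact hΓb.2⟩
  have h3 : NullSingletonClass (μH[1] : Measure Pl) :=
    Measure.nullSingletonClass_hausdorff Pl (by norm_num)
  have h4 : NullSingletonClass ν := ⟨fun x => by
    show (volume.restrict E + (μH[1] : Measure Pl).restrict Γ) {x} = 0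
    rw [Measure.add_apply]
    simp⟩
  have hbd : ∀ S : Set Pl, MeasurableSet S → Bornology.IsBounded S → ∀ μ : Measure Pl,
      IsFiniteMeasure (μ.restrict S) → ∀ x : Pl,
      Integrable (fun y : Pl => ‖x - y‖) (μ.restrict S) := by
    intro S hSm hS μ hμ x
    obtain ⟨R, hR⟩ := hS.exists_norm_le
    refine Integrable.mono' (integrable_const (‖x‖ + R)) (by fun_prop) ?_
    rw [ae_restrict_iff' hSm]
    refine Filter.Eventually.of_forall fun y hy => ?_
    rw [norm_norm]
    exact (norm_sub_le _ _).trans (by linarith [hR y hy])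
  have hΓm : MeasurableSet Γ := by
    rcases hΓ with rfl | ⟨γ, L, hL, rfl⟩
    · exact MeasurableSet.empty
    · exact (isCompact_Icc.image_of_continuousOn hL.continuousOn).measurableSet
  have hiE := hbd E hE.measurableSet hEb volume h1
  have hiΓ := hbd Γ hΓm hΓb.1 (μH[1]) h2
  have hgen : ∀ x, genF E Γ p x = FF ν p x := by
    intro x
    unfold genF FF
    rw [integral_add_measure (hiE x) (hiΓ x)]
  have hint : Integrable (fun y : Pl => ‖y‖) ν := by
    have e1 := hiE 0
    have e2 := hiΓ 0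
    simp only [zero_sub, norm_neg] at e1 e2
    exact e1.add_measure e2
  obtain ⟨z, hz⟩ := hc
  refine neg_DD ν hint p c ⟨z, by rw [← hgen]; exact hz⟩ ?_
  rw [hC]
  ext x
  simp only [Set.mem_ofPred_eq, hgen]

end V11196.MFE
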