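import Mathlib

/-!
# Weighted sums of distances
-/

set_option linter.unusedSectionVars false
set_option linter.unusedVariables false

namespace V11196.MFE

open Filter Topology

/-- The Euclidean plane. -/
abbrev Pl : Type := EuclideanSpace ℝ (Fin 2)

/-- The data of a weighted distance sum `|x| + ∑ w_i |x - q_i|` with small weights. -/
structure Dat where
  w : ℕ → ℝ
  q : ℕ → Pl
  w_nonneg : ∀ i, 0 ≤ w i
  w_summable : Summable w
  w_sum : ∑' i, w i ≤ 1 / 8
  q_le : ∀ i, ‖q i‖ ≤ 4 / 3

namespace Dat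

variable (D : Dat)

/-- The function `|x| + ∑ w_i |x - q_i|`. -/
noncomputable def f (x : Pl) : ℝ := ‖x‖ + ∑' i, D.w i * ‖x - D.q i‖

theorem summ (x : Pl) : Summable fun i => D.w i * ‖x - D.q i‖ := by
  refine Summable.of_nonneg_of_le (fun i => mul_nonneg (D.w_nonneg i) (norm_nonneg _))
    (fun i => mul_le_mul_of_nonneg_left (?_ : ‖x - D.q i‖ ≤ ‖x‖ + 4 / 3) (D.w_nonneg i))
    (D.w_summable.mul_right _)
  exact (norm_sub_le _ _).trans (add_le_add le_rfl (D.q_le i))

theorem norm_le_f (x : Pl) : ‖x‖ ≤ D.f x := by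
  have : 0 ≤ ∑' i, D.w i * ‖x - D.q i‖ :=
    tsum_nonneg fun i => mul_nonneg (D.w_nonneg i) (norm_nonneg _)
  unfold f
  linarith

theorem tsum_w_mul (c : ℝ) : ∑' i, D.w i * c = (∑' i, D.w i) * c := tsum_mul_right

theorem f_zero_lt : D.f 0 < 1 := by
  unfold f
  have : ∑' i, D.w i * ‖(0 : Pl) - D.q i‖ ≤ ∑' i, D.w i * (4 / 3) := by
    refine (D.summ 0).tsum_le_tsum (fun i => ?_) (D.w_summable.mul_right _)
    refine mul_le_mul_of_nonneg_left ?_ (D.w_nonneg i)
    rw [zero_sub, norm_neg]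
    exact D.q_le i
  rw [D.tsum_w_mul] at this
  have h := D.w_sum
  rw [norm_zero]
  linarith

/-- `f` is Lipschitz with constant `9/8`. -/
theorem f_lip (x y : Pl) : D.f x ≤ D.f y + 9 / 8 * ‖x - y‖ := by
  have h1 : ‖x‖ ≤ ‖y‖ + ‖x - y‖ := by
    have := norm_add_le y (x - y)
    rwa [add_sub_cancel] at this
  have h2 : ∑' i, D.w i * ‖x - D.q i‖ ≤ ∑' i, (D.w i * ‖y - D.q i‖ + D.w i * ‖x - y‖) := by
    refine (D.summ x).tsum_le_tsum (fun i => ?_) ((D.summ y).add (D.w_summable.mul_right _))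
    rw [← mul_add]
    refine mul_le_mul_of_nonneg_left ?_ (D.w_nonneg i)
    have := norm_add_le (y - D.q i) (x - y)
    rwa [show y - D.q i + (x - y) = x - D.q i by abel] at this
  rw [(D.summ y).tsum_add (D.w_summable.mul_right _), D.tsum_w_mul] at h2
  have h3 : (∑' i, D.w i) * ‖x - y‖ ≤ 1 / 8 * ‖x - y‖ :=
    mul_le_mul_of_nonneg_right D.w_sum (norm_nonneg _)
  unfold f
  linarith

theorem f_cont : Continuous D.f := by
  have : LipschitzWith (9 / 8 : NNReal) D.f := by
    refine LipschitzWith.of_le_add_mul _ (fun x y => ?_)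
    rw [dist_eq_norm]
    have := D.f_lip x y
    push_cast
    exact this
  exact this.continuous

/-- Radial monotonicity. -/
theorem f_radial (x : Pl) (s t : ℝ) (ht : 0 ≤ t) (hst : t ≤ s) :
    D.f (t • x) + 7 / 8 * ((s - t) * ‖x‖) ≤ D.f (s • x) := by
  have h1 : ‖s • x‖ = ‖t • x‖ + (s - t) * ‖x‖ := by
    rw [norm_smul, norm_smul, Real.norm_of_nonneg ht, Real.norm_of_nonneg (ht.trans hst)]
    ring
  have h2 : ∑' i, D.w i * ‖t • x - D.q i‖ ≤
      ∑' i, (D.w i * ‖s • x - D.q i‖ + D.w i * ((s - t) * ‖x‖)) := by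
    refine (D.summ _).tsum_le_tsum (fun i => ?_) ((D.summ _).add (D.w_summable.mul_right _))
    rw [← mul_add]
    refine mul_le_mul_of_nonneg_left ?_ (D.w_nonneg i)
    have := norm_add_le (s • x - D.q i) ((t - s) • x)
    rw [show s • x - D.q i + (t - s) • x = t • x - D.q i by rw [sub_smul]; abel,
      norm_smul, Real.norm_of_nonpos (by linarith)] at this
    linarith
  rw [(D.summ _).tsum_add (D.w_summable.mul_right _), D.tsum_w_mul] at h2
  have h3 : (∑' i, D.w i) * ((s - t) * ‖x‖) ≤ 1 / 8 * ((s - t) * ‖x‖) :=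
    mul_le_mul_of_nonneg_right D.w_sum (mul_nonneg (by linarith) (norm_nonneg _))
  unfold f
  rw [h1]
  linarith

theorem f_convex : ConvexOn ℝ Set.univ D.f := by
  refine ⟨convex_univ, fun x _ y _ a b ha hb hab => ?_⟩
  have h1 : ‖a • x + b • y‖ ≤ a * ‖x‖ + b * ‖y‖ := by
    refine (norm_add_le _ _).trans ?_
    rw [norm_smul, norm_smul, Real.norm_of_nonneg ha, Real.norm_of_nonneg hb]
  have h2 : ∑' i, D.w i * ‖a • x + b • y - D.q i‖ ≤
      ∑' i, (a * (D.w i * ‖x - D.q i‖) + b * (D.w i * ‖y - D.q i‖)) := by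
    refine (D.summ _).tsum_le_tsum (fun i => ?_) (((D.summ x).mul_left a).add
      ((D.summ y).mul_left b))
    have h3 : ‖a • x + b • y - D.q i‖ ≤ a * ‖x - D.q i‖ + b * ‖y - D.q i‖ := by
      have e : a • x + b • y - D.q i = a • (x - D.q i) + b • (y - D.q i) := by
        rw [smul_sub, smul_sub]
        have : D.q i = a • D.q i + b • D.q i := by rw [← add_smul, hab, one_smul]
        nth_rewrite 1 [this]
        abel
      rw [e]
      refine (norm_add_le _ _).trans ?_
      rw [norm_smul, norm_smul, Real.norm_of_nonneg ha, Real.norm_of_nonneg hb]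
    have := mul_le_mul_of_nonneg_left h3 (D.w_nonneg i)
    linarith
  rw [((D.summ x).mul_left a).tsum_add ((D.summ y).mul_left b), tsum_mul_left, tsum_mul_left]
    at h2
  simp only [smul_eq_mul]
  unfold f
  linarith

/-- The corner inequality at a focus. -/
theorem f_corner (j : ℕ) (h : Pl) :
    2 * D.f (D.q j) + 2 * (D.w j * ‖h‖) ≤ D.f (D.q j + h) + D.f (D.q j - h) := by
  have h1 : 2 * ‖D.q j‖ ≤ ‖D.q j + h‖ + ‖D.q j - h‖ := by
    have := norm_add_le (D.q j + h) (D.q j - h)
    rw [show D.q j + h + (D.q j - h) = (2 : ℝ) • D.q j by rw [two_smul]; abel, norm_smul,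
      Real.norm_of_nonneg (by norm_num)] at this
    exact this
  have hs : Summable fun i => (if i = j then 2 * (D.w j * ‖h‖) else 0) :=
    (hasSum_ite_eq j (2 * (D.w j * ‖h‖))).summable
  have h2 : ∑' i, (2 * (D.w i * ‖D.q j - D.q i‖) + (if i = j then 2 * (D.w j * ‖h‖) else 0)) ≤
      ∑' i, (D.w i * ‖D.q j + h - D.q i‖ + D.w i * ‖D.q j - h - D.q i‖) := by
    refine (((D.summ _).mul_left 2).add hs).tsum_le_tsum (fun i => ?_)
      ((D.summ _).add (D.summ _))
    by_cases hij : i = j
    · subst hij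
      rw [if_pos rfl, sub_self, norm_zero, mul_zero, mul_zero, zero_add, add_sub_cancel_left,
        show D.q i - h - D.q i = -h by abel, norm_neg]
      linarith
    · rw [if_neg hij, add_zero, ← mul_add]
      have := norm_add_le (D.q j + h - D.q i) (D.q j - h - D.q i)
      rw [show D.q j + h - D.q i + (D.q j - h - D.q i) = (2 : ℝ) • (D.q j - D.q i) by
        rw [two_smul]; abel, norm_smul, Real.norm_of_nonneg (by norm_num : (0 : ℝ) ≤ 2)] at this
      have := mul_le_mul_of_nonneg_left this (D.w_nonneg i)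
      linarith
  rw [((D.summ _).mul_left 2).tsum_add hs, (D.summ _).tsum_add (D.summ _), tsum_mul_left,
    tsum_ite_eq] at h2
  unfold f
  linarith

/-- The level set `{f = 1}` is the frontier of the convex body `{f ≤ 1}`. -/
theorem level_body : Convex ℝ {x | D.f x ≤ 1} ∧ IsCompact {x | D.f x ≤ 1} ∧
    (interior {x | D.f x ≤ 1}).Nonempty ∧ {x | D.f x = 1} = frontier {x | D.f x ≤ 1} := by
  have hcl : IsClosed {x | D.f x ≤ 1} := isClosed_le D.f_cont continuous_const
  have hop : {x | D.f x < 1} ⊆ interior {x | D.f x ≤ 1} :=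
    interior_maximal (fun x hx => le_of_lt (show D.f x < 1 from hx)) (isOpen_lt D.f_cont continuous_const)
  refine ⟨?_, ?_, ⟨0, hop D.f_zero_lt⟩, ?_⟩
  · have := D.f_convex.convex_le 1
    simpa using this
  · refine Metric.isCompact_of_isClosed_isBounded hcl ?_
    refine (Metric.isBounded_closedBall (x := (0 : Pl)) (r := 1)).subset ?_
    intro x hx
    rw [mem_closedBall_zero_iff]
    exact (D.norm_le_f x).trans hx
  · rw [hcl.frontier_eq]
    ext x
    constructor
    · intro hx
      have hx1 : D.f x = 1 := hx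
      refine ⟨le_of_eq hx1, fun hint => ?_⟩
      have hx0 : x ≠ 0 := by
        rintro rfl
        exact absurd hx1 (ne_of_lt D.f_zero_lt)
      rw [mem_interior_iff_mem_nhds] at hint
      have ht : Tendsto (fun s : ℝ => s • x) (𝓝 1) (𝓝 x) := by
        have : Continuous fun s : ℝ => s • x := by fun_prop
        have h := this.tendsto 1
        rwa [one_smul] at h
      have hev := ht.eventually hint
      obtain ⟨δ, hδ, hδ'⟩ := Metric.eventually_nhds_iff.mp hev
      have h1 : D.f ((1 + δ / 2) • x) ≤ 1 := by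
        apply hδ'
        rw [Real.dist_eq, add_sub_cancel_left, abs_of_pos (by linarith)]
        linarith
      have h2 := D.f_radial x (1 + δ / 2) 1 zero_le_one (by linarith)
      rw [one_smul, hx1] at h2
      have h3 : 0 < (1 + δ / 2 - 1) * ‖x‖ :=
        mul_pos (by linarith) (norm_pos_iff.mpr hx0)
      linarith
    · rintro ⟨hx1, hx2⟩
      exact le_antisymm hx1 (not_lt.mp fun h => hx2 (hop h))

end Dat

end V11196.MFE
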