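import Pool.Agent.V11196.MFE.Neg

set_option linter.unusedSectionVars false
set_option linter.unusedVariables false

namespace V11196.MFE

open Filter Topology MeasureTheory
open scoped RealInnerProductSpace

/-- Points where the potential is below the level lie in the body. -/
theorem below (D : Dat) (ν : Measure Pl) [IsFiniteMeasure ν]
    (hν : Integrable (fun y : Pl => ‖y‖) ν) {m : ℕ} (p : Fin m → Pl) (c : ℝ)
    (hC : {x | D.f x = 1} = {x | FF ν p x = c}) (hne : ∃ q, D.f q = 1) (z : Pl)
    (hz : FF ν p z < c) : D.f z ≤ 1 := by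
  by_contra hz1
  rw [not_le] at hz1
  have hcont := FF_cont ν hν p
  -- positive mass
  have hM : 0 < mass ν m := by
    rcases (mass_nonneg ν (m := m)).lt_or_eq with h | h
    · exact h
    · exfalso
      obtain ⟨q, hq⟩ := hne
      have hqc : FF ν p q = c := by
        have : q ∈ {x | D.f x = 1} := hq
        rw [hC] at this
        exact this
      have := FF_lip ν hν p q z
      rw [← h, zero_mul, add_zero, hqc] at this
      linarith
  have hhit : ∀ v : Pl, ‖v‖ = 1 → ∃ a : ℝ, 0 < a ∧ D.f (z + a • v) = 1 := by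
    intro v hv
    obtain ⟨T, hT0, hT⟩ : ∃ T : ℝ, 0 ≤ T ∧ c ≤ FF ν p (z + T • v) := by
      refine ⟨max 0 ((c + FF ν p z) / mass ν m), le_max_left _ _, ?_⟩
      have h1 := FF_coer ν hν p z v hv (max 0 ((c + FF ν p z) / mass ν m)) (le_max_left _ _)
      have h2 : (c + FF ν p z) / mass ν m * mass ν m ≤
          max 0 ((c + FF ν p z) / mass ν m) * mass ν m :=
        mul_le_mul_of_nonneg_right (le_max_right _ _) hM.le
      rw [div_mul_cancel₀ _ hM.ne'] at h2
      linarith
    have hg : Continuous fun t : ℝ => FF ν p (z + t • v) :=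
      hcont.comp (by fun_prop)
    have h0 : FF ν p (z + (0 : ℝ) • v) ≤ c := by rw [zero_smul, add_zero]; exact hz.le
    obtain ⟨a, ha, hac⟩ := intermediate_value_Icc hT0 hg.continuousOn ⟨h0, hT⟩
    refine ⟨a, ?_, ?_⟩
    · rcases ha.1.lt_or_eq with h | h
      · exact h
      · exfalso
        rw [← h] at hac
        have : FF ν p z = c := by
          have := hac
          simpa using this
        linarith
    · have : z + a • v ∈ {x | FF ν p x = c} := hac
      rw [← hC] at this
      exact this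
  have hv : ‖(EuclideanSpace.single (0 : Fin 2) (1 : ℝ) : Pl)‖ = 1 := by simp
  obtain ⟨a, ha, hfa⟩ := hhit _ hv
  obtain ⟨b, hb, hfb⟩ := hhit (-(EuclideanSpace.single (0 : Fin 2) (1 : ℝ) : Pl)) (by
    rw [norm_neg]; exact hv)
  set v : Pl := EuclideanSpace.single (0 : Fin 2) (1 : ℝ)
  have hab : 0 < a + b := add_pos ha hb
  have w1 : 0 ≤ b / (a + b) := by positivity
  have w2 : 0 ≤ a / (a + b) := by positivity
  have w3 : b / (a + b) + a / (a + b) = 1 := by field_simp; ring
  have hconv := D.f_convex.2 (Set.mem_univ (z + a • v)) (Set.mem_univ (z + b • (-v))) w1 w2 w3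
  rw [hfa, hfb] at hconv
  have e : (b / (a + b)) • (z + a • v) + (a / (a + b)) • (z + b • (-v)) = z := by
    have e1 : b / (a + b) + a / (a + b) = 1 := by field_simp; ring
    calc (b / (a + b)) • (z + a • v) + (a / (a + b)) • (z + b • (-v))
        = (b / (a + b) + a / (a + b)) • z +
          (b / (a + b) * a - a / (a + b) * b) • v := by module
      _ = z := by
          rw [e1, one_smul]
          have : b / (a + b) * a - a / (a + b) * b = 0 := by ring
          rw [this, zero_smul, add_zero]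
  rw [e] at hconv
  have e2 : (b / (a + b)) • (1 : ℝ) + (a / (a + b)) • (1 : ℝ) = 1 := by
    simp only [smul_eq_mul, mul_one]
    field_simp
    ring
  rw [e2] at hconv
  linarith

/-- The level set `{f = 1}` is not of generalized-ellipse form. -/
theorem neg (D : Dat) (hq1 : ∀ j, D.f (D.q j) = 1) (hw : ∀ j, 0 < D.w j)
    (hinj : Function.Injective D.q) (ν : Measure Pl) [IsFiniteMeasure ν] [NullSingletonClass ν]
    (hν : Integrable (fun y : Pl => ‖y‖) ν) {m : ℕ} (p : Fin m → Pl) (c : ℝ)
    (hc : ∃ z, FF ν p z < c) : {x | D.f x = 1} ≠ {x | FF ν p x = c} := by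
  intro hC
  obtain ⟨j, hj⟩ : ∃ j, ∀ k, p k ≠ D.q j := by
    by_contra hcon
    push Not at hcon
    have hsub : Set.range D.q ⊆ Set.range p := by
      rintro _ ⟨j, rfl⟩
      obtain ⟨k, hk⟩ := hcon j
      exact ⟨k, hk⟩
    exact Set.infinite_range_of_injective hinj ((Set.finite_range p).subset hsub)
  set q := D.q j with hq
  have hqc : FF ν p q = c := by
    have : q ∈ {x | D.f x = 1} := hq1 j
    rw [hC] at this
    exact this
  set G := GG ν p q with hG
  have hG0 : G ≠ 0 := by
    intro h0
    obtain ⟨z, hz⟩ := hc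
    have := FF_sub ν hν p q (z - q)
    rw [← hG, h0, inner_zero_left, add_zero, add_sub_cancel, hqc] at this
    linarith
  have hGpos : 0 < ‖G‖ := norm_pos_iff.mpr hG0
  -- a vector orthogonal to the gradient
  obtain ⟨u, hu0, huG⟩ : ∃ u : Pl, u ≠ 0 ∧ ⟪G, u⟫ = 0 := by
    refine ⟨!₂[-(G 1), G 0], ?_, ?_⟩
    · intro h
      apply hG0
      have h1 : -(G 1) = 0 := by
        have := congrArg (fun v : Pl => v 0) h
        simpa using this
      have h2 : G 0 = 0 := by
        have := congrArg (fun v : Pl => v 1) h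
        simpa using this
      ext i
      fin_cases i
      · simpa using h2
      · simpa using h1
    · rw [PiLp.inner_apply]
      simp [Fin.sum_univ_two]
      ring
  have hupos : 0 < ‖u‖ := norm_pos_iff.mpr hu0
  set ε : ℝ := D.w j * ‖u‖ / (2 * ‖G‖) with hε
  have hεpos : 0 < ε := by
    rw [hε]
    exact div_pos (mul_pos (hw j) hupos) (by linarith)
  have hdesc : ∀ s : Pl, ⟪G, s⟫ = 0 → ∀ᶠ t : ℝ in 𝓝[>] 0, D.f (q + t • (s - ε • G)) ≤ 1 := by
    intro s hs
    have hd := FF_deriv ν hν p q (s - ε • G) hj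
    have hneg : ⟪GG ν p q, s - ε • G⟫ < 0 := by
      rw [← hG, inner_sub_right, hs, real_inner_smul_right, real_inner_self_eq_norm_sq]
      have : 0 < ε * ‖G‖ ^ 2 := mul_pos hεpos (pow_pos hGpos 2)
      linarith
    have hslope := hd.tendsto_slope_zero_right
    have hev : ∀ᶠ t : ℝ in 𝓝[>] 0, t⁻¹ • (FF ν p (q + (0 + t) • (s - ε • G)) -
        FF ν p (q + (0 : ℝ) • (s - ε • G))) < 0 :=
      hslope.eventually (gt_mem_nhds hneg)
    filter_upwards [hev, self_mem_nhdsWithin] with t ht ht0
    have ht0' : 0 < t := ht0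
    rw [zero_add, zero_smul, add_zero, smul_eq_mul, hqc] at ht
    have : FF ν p (q + t • (s - ε • G)) - c < 0 := by
      by_contra hcon
      rw [not_lt] at hcon
      have := mul_nonneg (inv_nonneg.mpr ht0'.le) hcon
      linarith
    exact below D ν hν p c hC ⟨q, hq1 j⟩ _ (by linarith)
  have h1 := hdesc u huG
  have h2 := hdesc (-u) (by rw [inner_neg_right, huG, neg_zero])
  obtain ⟨t, ⟨ht1, ht2⟩, ht0⟩ := ((h1.and h2).and self_mem_nhdsWithin).exists
  have ht0' : 0 < t := ht0
  have hcor := D.f_corner j (t • u)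
  rw [← hq, hq1 j] at hcor
  have hl1 := D.f_lip (q + t • u) (q + t • (u - ε • G))
  have hl2 := D.f_lip (q - t • u) (q + t • (-u - ε • G))
  have e1 : q + t • u - (q + t • (u - ε • G)) = (t * ε) • G := by module
  have e2 : q - t • u - (q + t • (-u - ε • G)) = (t * ε) • G := by module
  rw [e1, norm_smul, Real.norm_of_nonneg (mul_nonneg ht0'.le hεpos.le)] at hl1
  rw [e2, norm_smul, Real.norm_of_nonneg (mul_nonneg ht0'.le hεpos.le)] at hl2
  rw [norm_smul, Real.norm_of_nonneg ht0'.le] at hcor
  have e3 : t * ε * ‖G‖ = t * (D.w j * ‖u‖ / 2) := by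
    rw [hε]
    field_simp
  rw [e3] at hl1 hl2
  have hpos : 0 < t * (D.w j * ‖u‖) := mul_pos ht0' (mul_pos (hw j) hupos)
  nlinarith [hcor, hl1, hl2, ht1, ht2, hpos]

end V11196.MFE
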