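import Pool.Agent.V11196.MFE.Contra

set_option linter.unusedSectionVars false
set_option linter.unusedVariables false

/-!
# Existence of the example by the contraction principle
-/

namespace V11196.MFE

open Filter Topology

/-- The weights. -/
noncomputable def ww (i : ℕ) : ℝ := (1 / 2) ^ (i + 4)

theorem ww_pos (i : ℕ) : 0 < ww i := by unfold ww; positivity

theorem ww_hasSum : HasSum ww (1 / 8) := by
  have h := (hasSum_geometric_two).mul_left ((1 / 2 : ℝ) ^ 4)
  have e : (fun i : ℕ => (1 / 2 : ℝ) ^ 4 * (1 / 2) ^ i) = ww := by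
    funext i
    unfold ww
    rw [pow_add, mul_comm]
  rw [e] at h
  norm_num at h
  norm_num
  exact h

/-- The directions. -/
noncomputable def th (i : ℕ) : Pl := !₂[Real.cos (1 / (i + 1)), Real.sin (1 / (i + 1))]

theorem th_norm (i : ℕ) : ‖th i‖ = 1 := by
  rw [EuclideanSpace.norm_eq, Fin.sum_univ_two]
  simp [th]

theorem th_inj : Function.Injective th := by
  intro i j h
  have h0 : Real.cos (1 / (i + 1)) = Real.cos (1 / (j + 1)) := by
    have := congrArg (fun v : Pl => v 0) h
    simpa [th] using this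
  have hb : ∀ k : ℕ, (1 / ((k : ℝ) + 1)) ∈ Set.Icc 0 Real.pi := by
    intro k
    have hk : (0 : ℝ) < (k : ℝ) + 1 := by positivity
    refine ⟨by positivity, ?_⟩
    have : 1 / ((k : ℝ) + 1) ≤ 1 := by
      rw [div_le_one hk]
      have : (0 : ℝ) ≤ k := Nat.cast_nonneg k
      linarith
    linarith [Real.pi_gt_three]
  have h1 := Real.injOn_cos (hb i) (hb j) h0
  have hi : (0 : ℝ) < (i : ℝ) + 1 := by positivity
  have hj : (0 : ℝ) < (j : ℝ) + 1 := by positivity
  rw [div_eq_div_iff hi.ne' hj.ne'] at h1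
  have : (i : ℝ) = j := by linarith
  exact_mod_cast this

open BoundedContinuousFunction

theorem summ_r (r : ℕ →ᵇ ℝ) (j : ℕ) : Summable fun i => ww i * ‖r j • th j - r i • th i‖ := by
  refine Summable.of_nonneg_of_le (fun i => mul_nonneg (ww_pos i).le (norm_nonneg _))
    (fun i => mul_le_mul_of_nonneg_left (?_ : _ ≤ 2 * ‖r‖) (ww_pos i).le)
    (ww_hasSum.summable.mul_right _)
  refine (norm_sub_le _ _).trans ?_
  rw [norm_smul, norm_smul, th_norm, th_norm, mul_one, mul_one]
  have h1 := r.norm_coe_le_norm j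
  have h2 := r.norm_coe_le_norm i
  linarith

theorem tsum_r_le (r : ℕ →ᵇ ℝ) (j : ℕ) :
    ∑' i, ww i * ‖r j • th j - r i • th i‖ ≤ 1 / 4 * ‖r‖ := by
  have h : ∑' i, ww i * ‖r j • th j - r i • th i‖ ≤ ∑' i, ww i * (2 * ‖r‖) := by
    refine (summ_r r j).tsum_le_tsum (fun i => mul_le_mul_of_nonneg_left ?_ (ww_pos i).le)
      (ww_hasSum.summable.mul_right _)
    refine (norm_sub_le _ _).trans ?_
    rw [norm_smul, norm_smul, th_norm, th_norm, mul_one, mul_one]
    have h1 := r.norm_coe_le_norm j
    have h2 := r.norm_coe_le_norm i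
    linarith
  rw [tsum_mul_right, ww_hasSum.tsum_eq] at h
  linarith

/-- The contraction. -/
noncomputable def SS (r : ℕ →ᵇ ℝ) : ℕ →ᵇ ℝ :=
  BoundedContinuousFunction.ofNormedAddCommGroupDiscrete
    (fun j => 1 - ∑' i, ww i * ‖r j • th j - r i • th i‖) (1 + 1 / 4 * ‖r‖) (by
      intro j
      have h1 := tsum_r_le r j
      have h2 : 0 ≤ ∑' i, ww i * ‖r j • th j - r i • th i‖ :=
        tsum_nonneg fun i => mul_nonneg (ww_pos i).le (norm_nonneg _)
      rw [Real.norm_eq_abs, abs_le]
      have h3 := norm_nonneg r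
      constructor <;> linarith)

theorem SS_apply (r : ℕ →ᵇ ℝ) (j : ℕ) :
    SS r j = 1 - ∑' i, ww i * ‖r j • th j - r i • th i‖ := rfl

theorem SS_sub_le (r r' : ℕ →ᵇ ℝ) (j : ℕ) : SS r j - SS r' j ≤ 1 / 4 * dist r r' := by
  rw [SS_apply, SS_apply]
  have h : ∑' i, ww i * ‖r' j • th j - r' i • th i‖ ≤
      ∑' i, (ww i * ‖r j • th j - r i • th i‖ + ww i * (2 * dist r r')) := by
    refine (summ_r r' j).tsum_le_tsum (fun i => ?_)
      ((summ_r r j).add (ww_hasSum.summable.mul_right _))
    rw [← mul_add]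
    refine mul_le_mul_of_nonneg_left ?_ (ww_pos i).le
    have h1 : ‖(r' j - r j) • th j‖ ≤ dist r r' := by
      rw [norm_smul, th_norm, mul_one, ← dist_eq_norm, dist_comm]
      exact BoundedContinuousFunction.dist_coe_le_dist j
    have h2 : ‖(r' i - r i) • th i‖ ≤ dist r r' := by
      rw [norm_smul, th_norm, mul_one, ← dist_eq_norm, dist_comm]
      exact BoundedContinuousFunction.dist_coe_le_dist i
    have h3 := norm_add_le (r j • th j - r i • th i) ((r' j - r j) • th j - (r' i - r i) • th i)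
    rw [show r j • th j - r i • th i + ((r' j - r j) • th j - (r' i - r i) • th i) =
      r' j • th j - r' i • th i by module] at h3
    have h4 := norm_sub_le ((r' j - r j) • th j) ((r' i - r i) • th i)
    linarith
  rw [(summ_r r j).tsum_add (ww_hasSum.summable.mul_right _), tsum_mul_right,
    ww_hasSum.tsum_eq] at h
  linarith

theorem SS_contr : ContractingWith (1 / 4 : NNReal) SS := by
  refine ⟨?_, LipschitzWith.of_dist_le_mul fun r r' => ?_⟩
  · rw [div_lt_one (by norm_num)]
    norm_num
  · rw [BoundedContinuousFunction.dist_le (by positivity)]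
    intro j
    rw [Real.dist_eq, abs_le]
    have h1 := SS_sub_le r r' j
    have h2 := SS_sub_le r' r j
    rw [dist_comm r' r] at h2
    push_cast
    constructor <;> linarith

/-- The radii. -/
noncomputable def rr : ℕ →ᵇ ℝ := ContractingWith.fixedPoint SS SS_contr

theorem rr_fix (j : ℕ) : rr j = 1 - ∑' i, ww i * ‖rr j • th j - rr i • th i‖ := by
  have : SS rr = rr := ContractingWith.fixedPoint_isFixedPt SS_contr
  nth_rewrite 1 [← this]
  rfl

theorem rr_norm : ‖rr‖ ≤ 4 / 3 := by
  have h : ‖rr‖ ≤ 1 + 1 / 4 * ‖rr‖ := by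
    rw [BoundedContinuousFunction.norm_le (by positivity)]
    intro j
    have h1 := tsum_r_le rr j
    have h2 : 0 ≤ ∑' i, ww i * ‖rr j • th j - rr i • th i‖ :=
      tsum_nonneg fun i => mul_nonneg (ww_pos i).le (norm_nonneg _)
    rw [rr_fix j, Real.norm_eq_abs, abs_le]
    have h3 := norm_nonneg rr
    constructor <;> linarith
  linarith

theorem rr_pos (j : ℕ) : 0 < rr j := by
  have h1 := tsum_r_le rr j
  have h2 := rr_norm
  rw [rr_fix j]
  linarith

/-- The data of the example. -/
noncomputable def DD : Dat where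
  w := ww
  q := fun i => rr i • th i
  w_nonneg := fun i => (ww_pos i).le
  w_summable := ww_hasSum.summable
  w_sum := ww_hasSum.tsum_eq.le
  q_le := fun i => by
    rw [norm_smul, th_norm, mul_one]
    exact (rr.norm_coe_le_norm i).trans rr_norm

theorem DD_q (j : ℕ) : DD.f (DD.q j) = 1 := by
  show ‖rr j • th j‖ + ∑' i, ww i * ‖rr j • th j - rr i • th i‖ = 1
  rw [norm_smul, th_norm, mul_one, Real.norm_of_nonneg (rr_pos j).le]
  have := rr_fix j
  linarith

theorem DD_inj : Function.Injective DD.q := by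
  intro i j h
  have h1 : rr i • th i = rr j • th j := h
  have h2 : rr i = rr j := by
    have := congrArg norm h1
    rwa [norm_smul, norm_smul, th_norm, th_norm, mul_one, mul_one,
      Real.norm_of_nonneg (rr_pos i).le, Real.norm_of_nonneg (rr_pos j).le] at this
  rw [h2] at h1
  exact th_inj (smul_right_injective Pl (rr_pos j).ne' h1)

end V11196.MFE
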