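import Pool.Agent.V11196.MFE.Basic

/-!
# Level sets of potentials of atomless measures plus finitely many points have finitely many corners
-/

set_option linter.unusedSectionVars false
set_option linter.unusedVariables false

namespace V11196.MFE

open Filter Topology MeasureTheory
open scoped RealInnerProductSpace

/-- The potential of a measure plus finitely many points. -/
noncomputable def FF (ν : Measure Pl) {m : ℕ} (p : Fin m → Pl) (x : Pl) : ℝ :=
  (∫ y, ‖x - y‖ ∂ν) + ∑ k, ‖x - p k‖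

section

variable (ν : Measure Pl) [IsFiniteMeasure ν] (hν : Integrable (fun y : Pl => ‖y‖) ν)
  {m : ℕ} (p : Fin m → Pl)

include hν

theorem int_dist (x : Pl) : Integrable (fun y : Pl => ‖x - y‖) ν := by
  refine Integrable.mono' ((integrable_const ‖x‖).add hν)
    (by fun_prop) (Eventually.of_forall fun y => ?_)
  rw [norm_norm]
  exact norm_sub_le _ _

/-- Total mass. -/
noncomputable def mass (ν : Measure Pl) (m : ℕ) : ℝ := ν.real Set.univ + m

omit hν in
theorem mass_nonneg : 0 ≤ mass ν m := add_nonneg measureReal_nonneg (Nat.cast_nonneg m)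

theorem FF_lip (x y : Pl) : FF ν p x ≤ FF ν p y + mass ν m * ‖x - y‖ := by
  have h1 : (∫ z, ‖x - z‖ ∂ν) ≤ ∫ z, (‖y - z‖ + ‖x - y‖) ∂ν := by
    refine integral_mono (int_dist ν hν x) ((int_dist ν hν y).add (integrable_const _)) fun z => ?_
    have := norm_add_le (y - z) (x - y)
    rwa [show y - z + (x - y) = x - z by abel] at this
  rw [integral_add (int_dist ν hν y) (integrable_const _), integral_const, smul_eq_mul] at h1
  have h2 : ∑ k, ‖x - p k‖ ≤ ∑ k, (‖y - p k‖ + ‖x - y‖) := by
    refine Finset.sum_le_sum fun k _ => ?_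
    have := norm_add_le (y - p k) (x - y)
    rwa [show y - p k + (x - y) = x - p k by abel] at this
  rw [Finset.sum_add_distrib, Finset.sum_const, Finset.card_univ, Fintype.card_fin,
    nsmul_eq_mul] at h2
  unfold FF mass
  linarith [h1, h2, add_mul (ν.real Set.univ) (m : ℝ) ‖x - y‖]

theorem FF_cont : Continuous (FF ν p) := by
  have : LipschitzWith (Real.toNNReal (mass ν m)) (FF ν p) := by
    refine LipschitzWith.of_le_add_mul _ (fun x y => ?_)
    rw [dist_eq_norm, Real.coe_toNNReal _ (mass_nonneg ν)]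
    exact FF_lip ν hν p x y
  exact this.continuous

/-- Coercivity along rays. -/
theorem FF_coer (z v : Pl) (hv : ‖v‖ = 1) (T : ℝ) (hT : 0 ≤ T) :
    T * mass ν m - FF ν p z ≤ FF ν p (z + T • v) := by
  have hT' : ‖T • v‖ = T := by rw [norm_smul, hv, mul_one, Real.norm_of_nonneg hT]
  have h1 : (∫ y, (T - ‖z - y‖) ∂ν) ≤ ∫ y, ‖z + T • v - y‖ ∂ν := by
    refine integral_mono ((integrable_const _).sub (int_dist ν hν z))
      (int_dist ν hν _) fun y => ?_
    have := norm_sub_le (z + T • v - y) (z - y)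
    rw [show z + T • v - y - (z - y) = T • v by abel, hT'] at this
    show T - ‖z - y‖ ≤ ‖z + T • v - y‖
    linarith
  rw [integral_sub (integrable_const _) (int_dist ν hν z), integral_const, smul_eq_mul] at h1
  have h2 : ∑ k, (T - ‖z - p k‖) ≤ ∑ k, ‖z + T • v - p k‖ := by
    refine Finset.sum_le_sum fun k _ => ?_
    have := norm_sub_le (z + T • v - p k) (z - p k)
    rw [show z + T • v - p k - (z - p k) = T • v by abel, hT'] at this
    linarith
  rw [Finset.sum_sub_distrib, Finset.sum_const, Finset.card_univ, Fintype.card_fin,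
    nsmul_eq_mul] at h2
  unfold FF mass
  linarith [h1, h2, mul_add T (ν.real Set.univ) (m : ℝ)]

/-- The gradient. -/
noncomputable def GG (ν : Measure Pl) {m : ℕ} (p : Fin m → Pl) (q : Pl) : Pl :=
  (∫ y, (‖q - y‖⁻¹ • (q - y)) ∂ν) + ∑ k, ‖q - p k‖⁻¹ • (q - p k)

omit hν in
theorem unit_norm_le (v : Pl) : ‖‖v‖⁻¹ • v‖ ≤ 1 := by
  rw [norm_smul, norm_inv, norm_norm]
  by_cases h : ‖v‖ = 0
  · rw [h, mul_zero]; exact zero_le_one
  · rw [inv_mul_cancel₀ h]

omit hν in
theorem int_unit (q : Pl) : Integrable (fun y : Pl => ‖q - y‖⁻¹ • (q - y)) ν := by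
  refine Integrable.mono' (integrable_const (1 : ℝ)) ?_ (Eventually.of_forall fun y =>
    unit_norm_le _)
  have : Measurable (fun y : Pl => ‖q - y‖⁻¹ • (q - y)) := by fun_prop
  exact this.aestronglyMeasurable

omit hν in
/-- Subgradient inequality for the norm. -/
theorem sub_norm (v h : Pl) : ‖v‖ + ⟪‖v‖⁻¹ • v, h⟫ ≤ ‖v + h‖ := by
  by_cases hv : v = 0
  · subst hv
    simp
  · have hv' : 0 < ‖v‖ := norm_pos_iff.mpr hv
    have h1 : ⟪‖v‖⁻¹ • v, v + h⟫ ≤ ‖v + h‖ := by
      refine (real_inner_le_norm _ _).trans ?_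
      calc ‖‖v‖⁻¹ • v‖ * ‖v + h‖ ≤ 1 * ‖v + h‖ :=
            mul_le_mul_of_nonneg_right (unit_norm_le v) (norm_nonneg _)
        _ = _ := one_mul _
    rw [inner_add_right] at h1
    have h2 : ⟪‖v‖⁻¹ • v, v⟫ = ‖v‖ := by
      rw [real_inner_smul_left, real_inner_self_eq_norm_sq, sq, ← mul_assoc,
        inv_mul_cancel₀ hv'.ne', one_mul]
    linarith

theorem inner_GG (q h : Pl) : ⟪GG ν p q, h⟫ =
    (∫ y, ⟪‖q - y‖⁻¹ • (q - y), h⟫ ∂ν) + ∑ k, ⟪‖q - p k‖⁻¹ • (q - p k), h⟫ := by
  unfold GG
  rw [inner_add_left, sum_inner]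
  congr 1
  have := integral_inner (𝕜 := ℝ) (int_unit ν q) h
  rw [real_inner_comm, ← this]
  congr 1
  funext y
  rw [real_inner_comm]

/-- Subgradient inequality for the potential. -/
theorem FF_sub (q h : Pl) : FF ν p q + ⟪GG ν p q, h⟫ ≤ FF ν p (q + h) := by
  rw [inner_GG ν hν p q h]
  have hi : Integrable (fun y : Pl => ⟪‖q - y‖⁻¹ • (q - y), h⟫) ν := (int_unit ν q).inner_const h
  have h1 : (∫ y, (‖q - y‖ + ⟪‖q - y‖⁻¹ • (q - y), h⟫) ∂ν) ≤ ∫ y, ‖q + h - y‖ ∂ν := by
    refine integral_mono ((int_dist ν hν q).add hi) (int_dist ν hν _) fun y => ?_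
    have := sub_norm (q - y) h
    rwa [show q - y + h = q + h - y by abel] at this
  rw [integral_add (int_dist ν hν q) hi] at h1
  have h2 : ∑ k, (‖q - p k‖ + ⟪‖q - p k‖⁻¹ • (q - p k), h⟫) ≤ ∑ k, ‖q + h - p k‖ := by
    refine Finset.sum_le_sum fun k _ => ?_
    have := sub_norm (q - p k) h
    rwa [show q - p k + h = q + h - p k by abel] at this
  rw [Finset.sum_add_distrib] at h2
  unfold FF
  linarith

omit hν in
/-- Derivative of the norm along a line, away from the origin. -/
theorem norm_line_deriv (v h : Pl) (hv : v ≠ 0) :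
    HasDerivAt (fun t : ℝ => ‖v + t • h‖) ⟪‖v‖⁻¹ • v, h⟫ 0 := by
  have h1 : HasDerivAt (fun t : ℝ => v + t • h) h 0 := by
    have := ((hasDerivAt_id (0 : ℝ)).smul_const h).const_add v
    simpa using this
  have h2 : HasDerivAt (fun t : ℝ => ‖v + t • h‖ ^ 2) (2 * ⟪v, h⟫) 0 := by
    have := h1.norm_sq
    simpa using this
  have h3 : HasDerivAt (fun t : ℝ => Real.sqrt (‖v + t • h‖ ^ 2))
      ((2 * ⟪v, h⟫) / (2 * Real.sqrt (‖v + (0 : ℝ) • h‖ ^ 2))) 0 := by
    apply h2.sqrt
    rw [zero_smul, add_zero]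
    exact pow_ne_zero 2 (norm_ne_zero_iff.mpr hv)
  have h4 : (fun t : ℝ => Real.sqrt (‖v + t • h‖ ^ 2)) = fun t : ℝ => ‖v + t • h‖ := by
    funext t
    exact Real.sqrt_sq (norm_nonneg _)
  rw [h4, zero_smul, add_zero, Real.sqrt_sq (norm_nonneg _)] at h3
  have h5 : (2 * ⟪v, h⟫) / (2 * ‖v‖) = ⟪‖v‖⁻¹ • v, h⟫ := by
    rw [real_inner_smul_left]
    field_simp
  rwa [h5] at h3

/-- The derivative of the potential along a line through a point that is not an atom. -/
theorem FF_deriv [NullSingletonClass ν] (q h : Pl) (hq : ∀ k, p k ≠ q) :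
    HasDerivAt (fun t : ℝ => FF ν p (q + t • h)) ⟪GG ν p q, h⟫ 0 := by
  rw [inner_GG ν hν p q h]
  unfold FF
  apply HasDerivAt.add
  · have hmeas : ∀ t : ℝ, AEStronglyMeasurable (fun y : Pl => ‖q + t • h - y‖) ν := by
      intro t
      exact (int_dist ν hν _).aestronglyMeasurable
    have key := hasDerivAt_integral_of_dominated_loc_of_lip (𝕜 := ℝ) (μ := ν)
      (F := fun (t : ℝ) (y : Pl) => ‖q + t • h - y‖)
      (F' := fun y : Pl => ⟪‖q - y‖⁻¹ • (q - y), h⟫) (x₀ := 0) (s := Set.univ)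
      (bound := fun _ => ‖h‖) Filter.univ_mem (Eventually.of_forall hmeas)
      (int_dist ν hν _) ((int_unit ν q).inner_const h).aestronglyMeasurable
      (Eventually.of_forall fun y => by
        intro s _ t _
        rw [edist_dist, edist_dist, Real.dist_eq, Real.dist_eq]
        have h1 : |‖q + s • h - y‖ - ‖q + t • h - y‖| ≤ ‖(s - t) • h‖ := by
          refine (abs_norm_sub_norm_le _ _).trans (le_of_eq ?_)
          congr 1
          rw [sub_smul]
          abel
        rw [norm_smul] at h1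
        have h2 : ((Real.nnabs ‖h‖ : NNReal) : ENNReal) = ENNReal.ofReal ‖h‖ := by
          rw [ENNReal.ofReal]
          congr 1
          ext
          simp
        rw [h2, ← ENNReal.ofReal_mul (norm_nonneg _)]
        apply ENNReal.ofReal_le_ofReal
        rw [mul_comm]
        exact h1)
      (integrable_const _)
      (by
        have hne : ∀ᵐ y ∂ν, y ≠ q := by
          rw [ae_iff]
          simp
        filter_upwards [hne] with y hy
        have := norm_line_deriv (q - y) h (sub_ne_zero.mpr (Ne.symm hy))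
        have e : (fun t : ℝ => ‖q - y + t • h‖) = fun t : ℝ => ‖q + t • h - y‖ := by
          funext t
          congr 1
          abel
        rwa [e] at this)
    exact key.2
  · apply HasDerivAt.fun_sum
    intro k _
    have := norm_line_deriv (q - p k) h (sub_ne_zero.mpr (Ne.symm (hq k)))
    have e : (fun t : ℝ => ‖q - p k + t • h‖) = fun t : ℝ => ‖q + t • h - p k‖ := by
      funext t
      congr 1
      abel
    rwa [e] at this

end

end V11196.MFE
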